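import Pool.Agent.H166R3.LN.Main

set_option autoImplicit false

/-!
# Reflection of hyperarithmetic randomness implies Luzin's property (N)

Every computable real function that reflects randomness with respect to the null lightface Borel
sets has Luzin's property (N).  This answers Q1 of the problem in the negative.

Idea of the proof.  Fix a unit interval `S` with Lebesgue measure `l` and disintegrate `l` along
the fibres of `f`.  Reflection says that every null lightface Borel set has a null image.  Call a
point of `S` diffuse if it is not an atom of the measure on its fibre.  By the differentiation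
theorem the fibre measures of sets are limits of quotients of measures of sets, so the following
null set `N` is lightface Borel: the diffuse points `x` for which the fibre measure of the diffuse
points below `x` lies in a fixed closed null set `C` of numbers that contains `0` and uncountably
many arbitrarily small positive numbers.  For almost every `y` whose fibre meets a given null
set `A`, the point met is diffuse, and then the fibre of `y` contains a point of `N`: that point
itself if the diffuse part of the fibre measure vanishes, and a quantile otherwise.  As `f(N)` is
null, so is `f(A)`.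
-/

namespace Pool.Agent.Results.MP_a8cc1b_lc.ReflectionImpliesN

open MeasureTheory

/-- The rational number `(a - b) / (c + 1)` coded by `n = pair a (pair b c)`; every rational number
has a code. -/
noncomputable def ratOf (n : ℕ) : ℝ :=
  ((n.unpair.1 : ℝ) - n.unpair.2.unpair.1) / ((n.unpair.2.unpair.2 : ℝ) + 1)

/-- `p` is a name of `x`: a sequence of (codes of) rationals that converges fast to `x`. -/
def IsName (p : ℕ → ℕ) (x : ℝ) : Prop := ∀ n, |ratOf (p n) - x| ≤ (1/2)^n

/-- Computable real functions.  The oracle machine is given by a computable function `Φ`: with
oracle `p` and input `n` it inspects longer and longer initial segments `σ` of `p` and outputs the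
first value `Φ σ n` that is defined.  For every name `p` of every real `x` it has to output a name
`q` of `f x`. -/
def ComputableReal (f : ℝ → ℝ) : Prop := ∃ Φ : List ℕ → ℕ → Option ℕ, Computable₂ Φ ∧
  ∀ p x, IsName p x → ∃ q, IsName q (f x) ∧
    ∀ n, ∃ k, Φ ((List.range k).map p) n = some (q n) ∧ ∀ j < k, Φ ((List.range j).map p) n = none

/-- Lightface analytic sets of reals: there is a computable tree `T` such that, for every name `p`
of a real `x`, `x` is in `A` iff for some `g` all initial segments of the pair `(p, g)` are
in `T`. -/
def Sigma11 (A : Set ℝ) : Prop := ∃ T : List ℕ → Bool, Computable T ∧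
  ∀ (p : ℕ → ℕ) (x : ℝ), IsName p x →
    (x ∈ A ↔ ∃ g : ℕ → ℕ, ∀ n, T ((List.range n).map (fun i => Nat.pair (p i) (g i))) = true)

/-- Lightface Borel (that is, `Δ¹₁`) sets of reals. -/
def Delta11 (A : Set ℝ) : Prop := Sigma11 A ∧ Sigma11 Aᶜ

/-- `x` is `Δ¹₁`-random: it lies in no `Δ¹₁` set of Lebesgue measure zero. -/
def DeltaRandom (x : ℝ) : Prop := ∀ N : Set ℝ, Delta11 N → volume N = 0 → x ∉ N

/-- `f` reflects `Δ¹₁`-randomness. -/
def ReflectsDeltaRandomness (f : ℝ → ℝ) : Prop := ∀ x, DeltaRandom (f x) → DeltaRandom x

/-- Luzin's property (N): images of null sets are null. -/
def LuzinN (f : ℝ → ℝ) : Prop := ∀ N : Set ℝ, volume N = 0 → volume (f '' N) = 0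

/-- Every computable function that reflects `Δ¹₁`-randomness has Luzin's property (N). -/
theorem result : ∀ f : ℝ → ℝ, ComputableReal f → ReflectsDeltaRandomness f → LuzinN f := by
  intro f hf hr N hN
  exact Pool.Agent.H166R3.LN.main (f := f) hf hr hN

end Pool.Agent.Results.MP_a8cc1b_lc.ReflectionImpliesN
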